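import Pool.Agent.Q182.CsaMain

/-!
# Groups acting on trees with abelian edge stabilizers and CSA vertex stabilizers

`C` is any class of groups which contains the metabelian groups and has the closure properties
`ClosedA C`: the usual closure properties `ClosedE C` and closure under acylindrical actions on
trees. All of this is known for the class of the groups which satisfy the K-theoretic Farrell–Jones
conjecture with additive category coefficients and finite wreath products (solvable groups: Wegner,
acylindrical actions: Knopf). If a torsion-free group `G` is in this class then `K_n(R G) = 0` for
all regular rings `R` and all `n ≤ -1`.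

The theorem below shows that the fundamental group of an arbitrary graph of groups with abelian edge
groups is in `C` if the vertex groups are CSA groups in `C`, for instance torsion-free hyperbolic
groups, toral relatively hyperbolic groups or limit groups. Only the centralizers of the nontrivial
elements of the edge groups matter. There are no finiteness conditions, and the action on the
Bass–Serre tree is not assumed to be acylindrical; for instance the group can contain all
Baumslag–Solitar groups.

Outline of the proof. The edges with commuting nontrivial stabilizers at a common vertex generate
an equivalence relation, whose classes form subtrees, the cylinders. The type of a vertex of a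
cylinder is the common centralizer of the stabilizers of the edges of the cylinder at this vertex.
The graph of the types is a forest whose components embed in the tree. Coning off the cylinders
gives a tree with an acylindrical action. The stabilizer of a cylinder acts on it with abelian
vertex stabilizers, so it is in `C` by our theorem on trees with central edge stabilizers (or the
theorem of Gandini, Meinert and Rüping).
-/

set_option autoImplicit false

namespace Pool.Agent.Results.MP_28303a_al.AbelianEdges

open Q182.Cyl (ClosedA)

/-- Let `C` be a class of groups with the closure properties `ClosedA C` which contains all
metabelian groups. Let `G` be a group acting without inversions on a tree so that all vertex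
stabilizers `G_v` are in `C` and all edge stabilizers are abelian. Suppose that for every nontrivial
element `a` of the stabilizer of an edge at `v` the centralizer of `a` in `G_v` is abelian, and
contains all elements `g` of `G_v` such that `g a g⁻¹` commutes with `a`. Then `G` is in `C`. -/
theorem result (C : ∀ (G : Type) [Group G], Prop) (hC : ClosedA C)
    (hmet : ∀ (G : Type) [Group G], derivedSeries G 2 = ⊥ → C G)
    (G V : Type) [Group G] [MulAction G V] (T : SimpleGraph V) (hT : T.IsTree)
    (hadj : ∀ (g : G) (v w : V), T.Adj v w → T.Adj (g • v) (g • w))
    (hinv : ∀ (g : G) (v w : V), T.Adj v w → ¬ (g • v = w ∧ g • w = v))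
    (hst : ∀ v : V, C (MulAction.stabilizer G v))
    (hab : ∀ (v w : V) (a b : G), T.Adj v w → a • v = v → a • w = w → b • v = v → b • w = w →
      a * b = b * a)
    (hcen : ∀ (v w : V) (a g h : G), T.Adj v w → a ≠ 1 → a • v = v → a • w = w →
      g • v = v → h • v = v → g * a = a * g → h * a = a * h → g * h = h * g)
    (hcon : ∀ (v w : V) (a g : G), T.Adj v w → a ≠ 1 → a • v = v → a • w = w →
      g • v = v → (g * a * g⁻¹) * a = a * (g * a * g⁻¹) → g * a = a * g) : C G :=
  Q182.Csa.main hC hmet ⟨hT, hadj, hinv⟩
    ⟨hab, fun v a g h ⟨h1, w, h2, h3, h4⟩ h5 h6 h7 h8 => hcen v w a g h h2 h1 h3 h4 h5 h6 h7 h8,
      fun v a g ⟨h1, w, h2, h3, h4⟩ h5 h6 => hcon v w a g h2 h1 h3 h4 h5 h6⟩ hst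

end Pool.Agent.Results.MP_28303a_al.AbelianEdges
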