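import Pool.Agent.Q27.FC.Cor

/-!
# Groups acting on trees with locally central edge stabilizers

`C` is any class of groups which contains the metabelian groups and has the closure properties
`ClosedA C`, which are known for the groups which satisfy the K-theoretic Farrell–Jones conjecture with
coefficients and finite wreath products.

Let `G` act without inversions on a tree with vertex stabilizers `G_v` in `C`. We show that `G` is in
`C` in the following cases.

1. A local condition: `ρ` is a homomorphism from `G` to a group in `C` with kernel `R` and `Θ` is a
subset of `G` invariant under conjugation. For every vertex `v` and every finite set `X` of pairs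
`(w, x)`, where `w` is adjacent to `v` and `x` fixes `v` and `w`, there are normal subgroups
`L ≤ K ≤ R` of `G_v` with `G_v ⧸ K` and `G_v ⧸ L` in `C` such that for all `w` the group `E` generated
by the `x` with `(w, x)` in `X` satisfies `E ∩ R ≤ K`, `[E ∩ R, K] ≤ L`, and `E ∩ R ∩ L` is finite and
equal to `E ∩ R ∩ Θ`. (The groups `K` and `L` may depend on `X`; see `LocAt` in
`Pool/Agent/Q27/FC/Main.lean`.)

2. The stabilizers of the edges at a vertex `v` commute with each other, and for every finite set `X` of
elements of them the group of automorphisms which `G_v` induces on the normal subgroup generated by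
`X` is in `C`.

3. Every element of an edge stabilizer has only finitely many conjugates in the stabilizers of the ends
of the edge, and the quotients of `G_v` by the finite normal subgroups of `G_v` which are contained in
the subgroup generated by the stabilizers of the edges at `v` are in `C`.

Outline of the proof. `G` embeds in a multiple HNN extension of the free product of vertex
stabilizers, and this is a directed colimit of the groups `U` for which only finitely many elements of
the edge stabilizers are used. We construct the Bass–Serre tree of `U` with vertex stabilizers `1`,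
`G_v` and finitely generated subgroups of the edge stabilizers; it is acyclic because there is a
potential, given by a crossed homomorphism from `U` to the functions on the oriented edges. On this
tree the groups `K` and `L` define invariant families of normal subgroups, and the theorem on local
kernels applies, in a version in which the edge stabilizers meet the groups `L` in finite groups.
-/

set_option autoImplicit false

namespace Pool.Agent.Results.MP_28303a_al.FCEdges

open Q182.Cyl (ClosedA)
open Q27.FC (LocAt)

/-- Let `C` be a class of groups with the closure properties `ClosedA C` which contains all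
metabelian groups. Let `G` be a group acting without inversions on a tree with vertex stabilizers in
`C`. Then `G` is in `C` in each of the following cases.

(1) `ρ` is a homomorphism from `G` to a group `D` in `C`, `Θ` is a conjugation invariant subset of `G`,
and for every vertex `v` and every finite set `X` of pairs `(w, x)` with `w` adjacent to `v` and `x`
fixing `v` and `w` there are `K`, `L` with `LocAt C ρ Θ v X K L`.

(2) For every vertex `v` the elements which fix an edge at `v` commute, and for every finite set `X` of
such elements the quotient of the stabilizer of `v` by the centralizer of all its conjugates of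
elements of `X` is in `C`.

(3) For every edge `{v, w}` every element which fixes `v` and `w` has finitely many conjugates in the
stabilizer of `v`, and the quotients of the stabilizer of `v` by its finite normal subgroups contained
in the subgroup generated by the elements which fix an edge at `v` are in `C`. -/
theorem result (C : ∀ (G : Type) [Group G], Prop) (hC : ClosedA C)
    (hmet : ∀ (G : Type) [Group G], derivedSeries G 2 = ⊥ → C G)
    (G V : Type) [Group G] [MulAction G V] (T : SimpleGraph V) (hT : T.IsTree)
    (hadj : ∀ (g : G) (v w : V), T.Adj v w → T.Adj (g • v) (g • w))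
    (hinv : ∀ (g : G) (v w : V), T.Adj v w → ¬ (g • v = w ∧ g • w = v))
    (hst : ∀ v : V, C (MulAction.stabilizer G v)) :
    (∀ (D : Type) [Group D] (ρ : G →* D), C D → ∀ Θ : Set G,
      (∀ g x : G, x ∈ Θ → g * x * g⁻¹ ∈ Θ) →
      (∀ (v : V) (X : Set (V × G)), X.Finite →
        (∀ p ∈ X, T.Adj v p.1 ∧ p.2 • v = v ∧ p.2 • p.1 = p.1) →
        ∃ K L : Subgroup G, LocAt C ρ Θ v X K L) → C G) ∧
    ((∀ v w w' : V, T.Adj v w → T.Adj v w' → ∀ s s' : G, s • v = v → s • w = w →
        s' • v = v → s' • w' = w' → s * s' = s' * s) →
      (∀ (v : V) (X : Set G), X.Finite → (∀ x ∈ X, x • v = v ∧ ∃ w, T.Adj v w ∧ x • w = w) →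
        ∃ (Q : Type) (_ : Group Q) (φ : MulAction.stabilizer G v →* Q), C Q ∧
          ∀ g, φ g = 1 ↔ ∀ h : G, h • v = v → ∀ x ∈ X,
            (g : G) * (h * x * h⁻¹) = (h * x * h⁻¹) * g) → C G) ∧
    ((∀ v w : V, T.Adj v w → ∀ x : G, x • v = v → x • w = w →
        {y | ∃ g : G, g • v = v ∧ y = g * x * g⁻¹}.Finite) →
      (∀ (v : V) (L : Subgroup G), (L : Set G).Finite →
        L ≤ Subgroup.closure {x | x • v = v ∧ ∃ w, T.Adj v w ∧ x • w = w} →
        (∀ g : G, g • v = v → ∀ k ∈ L, g * k * g⁻¹ ∈ L) →
        ∃ (Q : Type) (_ : Group Q) (φ : MulAction.stabilizer G v →* Q), C Q ∧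
          ∀ s, φ s = 1 ↔ (s : G) ∈ L) → C G) :=
  ⟨fun _ _ ρ hD _ hΘ h => Q27.FC.main hΘ hC hmet ⟨hT, hadj, hinv⟩ ρ hD hst h,
    fun h1 h2 => Q27.FC.main_comm hC hmet ⟨hT, hadj, hinv⟩ hst h1 h2,
    fun h1 h2 => Q27.FC.main_fc hC hmet ⟨hT, hadj, hinv⟩ h1 h2⟩

end Pool.Agent.Results.MP_28303a_al.FCEdges
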