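import Pool.Agent.Q175.LG.Nk
import Pool.Agent.Q175.LG.Dil

/-!
# A logarithmic law for the negative `K`-groups of group rings

`R` is any ring and `G` any group. Every element of Bass's group `K_{-m}(R[G])` is a difference of
classes of idempotent matrices over `R[ℤᵐ × G]`. The projective module of an idempotent matrix is
presented by matrices over `R[ℤᵐ × G]` which are controlled over `G` by matrices over `ℤ[G]`. If the
norm of such a matrix on `ℓ²` is at most `3 / √2` plus a number which is exponentially small in its size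
(or in the inverse of the square root of its spectral gap) then the class is a sum of classes induced
from virtually cyclic subgroups. Conversely every element has presentations of norm at most
`3 / √2 + 2⁻ᴸ` whose size is at most linear in `L`.
-/

set_option autoImplicit false

namespace Pool.Agent.Results.MP_28303a_al.NegativeLogarithmicLaw

open Pool.Agent.Y75.NK TH6.PF TH6.FB TH57.Thr Matrix

/-- The group ring `R[ℤᵐ × G]`, the ring of Laurent polynomials in `m` variables over `R[G]`. -/
abbrev LR (R : Type) [Ring R] (m : ℕ) (G : GrpCat.{0}) : Type := MonoidAlgebra R ((EF m).obj G)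

/-- The projective module of the idempotent matrix `e` over `R[ℤᵐ × G]` is presented by a matrix `M`
which is controlled over `G` by `N`: if the coefficient of `M i j` at `(z, g)` is not zero then the
coefficient of `N i j` at `g` is not zero. -/
def PresentedBy (R : Type) [Ring R] (m : ℕ) (G : GrpCat.{0}) (e : Idem (LR R m G)) {p q : ℕ}
    (N : Matrix (Fin p) (Fin q) (MonoidAlgebra ℤ G)) : Prop :=
  ∃ M : Matrix (Fin p) (Fin q) (LR R m G), Pres e M ∧ Ctrl (prj m G) N M

/-- Spectral gap: the spectrum of `N N*` is contained in `{0} ∪ [K⁻², ∞)`; that is, every `x` is within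
distance `K |xN|` of the kernel of `N` on `ℓ²`, formulated with finitely supported vectors. -/
def Gap {G : Type} [Group G] {p q : ℕ} (N : Matrix (Fin p) (Fin q) (MonoidAlgebra ℤ G)) (K : ℕ) :
    Prop :=
  ∀ (x : Fin p → MonoidAlgebra ℝ G) (ε : ℝ), 0 < ε → ∃ x' : Fin p → MonoidAlgebra ℝ G,
    normSq (x' ᵥ* toReal N) ≤ ε ∧ normSq (x - x') ≤ (K : ℝ) ^ 2 * normSq (x ᵥ* toReal N) + ε

/-- The norm of `N` is at most `3 / √2 + 2⁻ᴸ`, and `L` is large compared with the size or with the
inverse of the square root of the spectral gap of `N`. -/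
def Window {G : Type} [Group G] {p q : ℕ} (N : Matrix (Fin p) (Fin q) (MonoidAlgebra ℤ G)) : Prop :=
  ∃ L : ℕ, NormLE N (3 / Real.sqrt 2 + (1 / 2) ^ L) ∧
    (2 * min p q + 30 ≤ L ∨ ∃ K : ℕ, Gap N K ∧ 16 * K + 31 ≤ L)

/-- The projective module of `e` is presented by a matrix with at most `C L` rows and columns which is
controlled by an integral matrix of norm at most `3 / √2 + 2⁻ᴸ`. -/
def Near (R : Type) [Ring R] (m : ℕ) (G : GrpCat.{0}) (C L : ℕ) (e : Idem (LR R m G)) : Prop :=
  ∃ (p q : ℕ) (N : Matrix (Fin p) (Fin q) (MonoidAlgebra ℤ G)), p ≤ C * L ∧ q ≤ C * L ∧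
    NormLE N (3 / Real.sqrt 2 + (1 / 2) ^ L) ∧ PresentedBy R m G e N

/-- `K_{-m}(R[C]) = 0` for all torsion-free cyclic groups `C`. -/
def CyclicVanishing (R : Type) [Ring R] (m : ℕ) : Prop :=
  ∀ C : GrpCat.{0}, IsCyclic C → TF C → Subsingleton ((Kneg m).obj ((gr R).obj C))

theorem near_of (R : Type) [Ring R] (m : ℕ) (G : GrpCat.{0}) (e : Idem (LR R m G)) :
    ∃ C : ℕ, ∀ L : ℕ, 1 ≤ L → Near R m G C L e := by
  obtain ⟨ψ⟩ := Pool.Agent.Q175.LG.range_coker e.e e.idem
  obtain ⟨C, hC⟩ := Pool.Agent.Q175.LG.dil_coker (prj m G) (1 - e.e)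
  refine ⟨e.n + C, fun L hL => ?_⟩
  obtain ⟨k, M, N, hk, ⟨e'⟩, hM, hN⟩ := hC L hL
  have h1 : e.n ≤ e.n * L := Nat.le_mul_of_pos_right _ hL
  refine ⟨e.n + k, e.n + k, N, ?_, ?_, hN, M, ⟨ψ.trans e'⟩, hM⟩
  · nlinarith
  · nlinarith

theorem near_mono (R : Type) [Ring R] (m : ℕ) (G : GrpCat.{0}) {C C' : ℕ} (h : C ≤ C') (L : ℕ)
    (e : Idem (LR R m G)) (hN : Near R m G C L e) : Near R m G C' L e := by
  obtain ⟨p, q, N, h1, h2, h3⟩ := hN
  have h4 : C * L ≤ C' * L := Nat.mul_le_mul_right _ h
  exact ⟨p, q, N, h1.trans h4, h2.trans h4, h3⟩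

/-- (1) Let the projective module of `e` be presented by a matrix which is controlled by `N` in the
window. Then the class of `e` in `K_{-m}(R[G])` is in the subgroup `vcSub R m G` generated by the
images of the groups `K_{-m}(R[V])`, `V` virtually cyclic (cyclic if `G` is torsion-free).
(2) Every element of `K_{-m}(R[G])` is a difference of the classes of two idempotent matrices `e`, `f`
whose projective modules have for all `L ≥ 1` presentations of size at most `C L` which are controlled
by integral matrices of norm at most `3 / √2 + 2⁻ᴸ`. (3) `K_{-m}(R[G])` is generated by the images of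
the groups `K_{-m}(R[V])` if and only if for every `C` there is one `L ≥ 1` such that the classes of
the matrices `e` with such a presentation are in `vcSub R m G`. (4) If `G` is torsion-free and
`K_{-m}(R[C]) = 0` for the torsion-free cyclic groups `C` then `vcSub R m G = 0`; (5) this is the case
for principal ideal domains `R` and `m ≥ 1`. -/
theorem result (R : Type) [Ring R] (G : GrpCat.{0}) (m : ℕ) :
    (∀ (e : Idem (LR R m G)) (p q : ℕ) (N : Matrix (Fin p) (Fin q) (MonoidAlgebra ℤ G)),
      PresentedBy R m G e N → Window N → kclass R m G e ∈ vcSub R m G) ∧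
    (∀ x : (Kneg m).obj ((gr R).obj G), ∃ e f : Idem (LR R m G),
      x = kclass R m G e - kclass R m G f ∧
      ∃ C : ℕ, ∀ L : ℕ, 1 ≤ L → Near R m G C L e ∧ Near R m G C L f) ∧
    (vcSub R m G = ⊤ ↔ ∀ C : ℕ, ∃ L : ℕ, 1 ≤ L ∧
      ∀ e : Idem (LR R m G), Near R m G C L e → kclass R m G e ∈ vcSub R m G) ∧
    (TF G → CyclicVanishing R m → vcSub R m G = ⊥) ∧
    (∀ (A : Type) [CommRing A] [IsDomain A] [IsPrincipalIdealRing A], 1 ≤ m →
      CyclicVanishing A m) := by
  have h2 : ∀ x : (Kneg m).obj ((gr R).obj G), ∃ e f : Idem (LR R m G),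
      x = kclass R m G e - kclass R m G f ∧
      ∃ C : ℕ, ∀ L : ℕ, 1 ≤ L → Near R m G C L e ∧ Near R m G C L f := by
    intro x
    obtain ⟨e, f, h⟩ := kclass_generate R m G x
    obtain ⟨C, hC⟩ := near_of R m G e
    obtain ⟨C', hC'⟩ := near_of R m G f
    exact ⟨e, f, h, max C C', fun L hL => ⟨near_mono R m G (le_max_left _ _) L e (hC L hL),
      near_mono R m G (le_max_right _ _) L f (hC' L hL)⟩⟩
  refine ⟨?_, h2, ⟨?_, ?_⟩, ?_, ?_⟩
  · rintro e p q N ⟨M, ⟨α⟩, hM⟩ ⟨L, hN, hw⟩
    apply Pool.Agent.Q175.LG.Nk.mem_vcSub_fib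
    refine Pool.Agent.Q175.LG.fib_win (prj m G) (prj_surj m G) (W e) p q M α N ?_ hM
    rcases hw with hw | ⟨K, hK, hw⟩
    · exact Pool.Agent.Q175.LG.win_size N L hw hN
    · exact Pool.Agent.Q175.LG.win_gap N L K hw hK hN
  · intro h C
    exact ⟨1, le_rfl, fun e _ => by rw [h]; exact AddSubgroup.mem_top _⟩
  · intro h
    rw [eq_top_iff]
    intro x _
    obtain ⟨e, f, hx, C, hC⟩ := h2 x
    obtain ⟨L, hL, hL2⟩ := h C
    rw [hx]
    exact AddSubgroup.sub_mem _ (hL2 e (hC L hL).1) (hL2 f (hC L hL).2)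
  · intro hG hR
    unfold vcSub
    rw [iSup_eq_bot]
    rintro ⟨V, hV, hV2⟩
    rw [eq_bot_iff]
    rintro _ ⟨x, rfl⟩
    have h2 : TF (GrpCat.of V) := fun g k hk h => Subtype.ext
      (hG g.1 k hk (by simpa using congrArg Subtype.val h))
    have h3 : x = 0 := @Subsingleton.elim _ (hR (GrpCat.of V) (hV2 hG) h2) _ _
    rw [h3, map_zero]
    exact AddSubgroup.zero_mem _
  · intro A _ _ _ hm C hC htf
    obtain ⟨m', rfl⟩ : ∃ m', m = m' + 1 := ⟨m - 1, by omega⟩
    exact Pool.Agent.Q175.LG.Nk.neg_cyc A m' C hC htf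

end Pool.Agent.Results.MP_28303a_al.NegativeLogarithmicLaw
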