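import Pool.Agent.Q27.EP.Main

/-!
# Functors on categories in which partial automorphisms extend

`C` is any class of groups with the closure properties `ClosedE C` and `D` any class which is closed
under subgroups and satisfies the extension principle over `C` (`ClosedOver C D`); `D = C` is
possible. All these properties are known for the class of the groups that satisfy the `K`-theoretic
Farrell–Jones conjecture with coefficients in additive categories and finite wreath products; for the
torsion-free groups `G` in this class and regular rings `R` one has `K_n(RG) = 0` for `n ≤ -1`.

Let `P` be a property of the objects of a category (`P A` means that `A` is finite) such that partial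
automorphisms extend (`Extends P`): for `f, g : A ⟶ B`, with `B` finite, there are `h : B ⟶ E`, with
`E` finite, and an automorphism `t` of finite order of `E` with `t h f = h g`. Let `𝒜` be a functor to
groups which is injective on morphisms and has values in `C` on finite objects, and let `M` be any
object such that `𝒜 M` is the directed union of the images of the groups `𝒜 A`, for `A ⟶ M` with `A`
finite.

Relational structures, with any set of relations of any finite positive arities, and embeddings, have
extension of partial automorphisms (Hrushovski for graphs, Herwig for finite relational languages);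
so do groups with injective homomorphisms. Examples of functors on labelled graphs are the Coxeter
groups and the Artin groups; for locally finite groups one can take, for instance, the units of the
group rings.
-/

set_option autoImplicit false

namespace Pool.Agent.Results.MP_28303a_al.PartialAutomorphisms

open CategoryTheory
open Q27.EP (Extends DirectedAt Finitary LocAct RS FinRS IG FinIG)
open Pool.Agent.Y110.FJ (ClosedE)
open Q30.FJ (ClosedOver)

/-- Let `C` be a class of groups with the closure properties `ClosedE C` and let `D` be closed under
subgroups and satisfy the extension principle over `C`.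

(1) Let `P` be a property of the objects of a category with `Extends P`, let `M` be an object such
that `DirectedAt P M` and let `𝒜` be a functor to groups with `Finitary P 𝒜 M` and `𝒜 A` in `C` for all
`A` with the property `P`.

(a) Let `N` be a normal subgroup of a group `G` with `G ⧸ N` in `D`, and let `e : 𝒜 M ≃* N`. Suppose
that for each `g` in `G` and each `j : A ⟶ M`, `A` with the property `P`, there are `n` in `N` and
`φ : A ⟶ M` such that the conjugation by `n g` maps `e (𝒜(j) a)` to `e (𝒜(φ) a)` for all `a` in `𝒜 A`.
Then `G` is in `D`.

(b) If `Q` is in `D` and acts on `M` by automorphisms then the semidirect product of `𝒜 M` and `Q` is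
in `D`.

(2) Finite relational structures with relations of arities `n i + 1`, `i` in `I`, have the property
`Extends`, and `DirectedAt FinRS M` holds for each structure `M`.

(3) Finite groups, with injective homomorphisms, have the property `Extends`, and
`DirectedAt FinIG M` holds for each locally finite group `M`. -/
theorem result (C D : ∀ (G : Type) [Group G], Prop) (hC : ClosedE C) (hD : ClosedOver C D) :
    (∀ (𝓚 : Type 1) [Category.{0} 𝓚] (P : 𝓚 → Prop) (𝒜 : 𝓚 ⥤ GrpCat.{0}) (M : 𝓚),
      Extends P → DirectedAt P M → Finitary P 𝒜 M → (∀ A : 𝓚, P A → C (𝒜.obj A)) →
      (∀ (G : Type) [Group G] (N : Subgroup G) [N.Normal] (e : 𝒜.obj M ≃* N), D (G ⧸ N) →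
        (∀ g : G, LocAct P 𝒜 M N e g) → D G) ∧
      ∀ (Q : Type) [Group Q] (θ : Q →* End M), ∃ φ : Q →* MulAut (𝒜.obj M),
        (∀ q x, φ q x = (𝒜.map (θ q)).hom x) ∧ (D Q → D (𝒜.obj M ⋊[φ] Q))) ∧
    (∀ (I : Type) (n : I → ℕ), Extends (FinRS : RS n → Prop) ∧
      ∀ M : RS n, DirectedAt FinRS M) ∧
    Extends FinIG ∧ ∀ M : IG, (∀ s : Set M.G, s.Finite → Finite ↥(Subgroup.closure s)) →
      DirectedAt FinIG M :=
  ⟨fun 𝓚 _ P 𝒜 M hP hM hF hCA => Q27.EP.main hC hD 𝓚 P 𝒜 M hP hM hF hCA,
    fun _ _ => ⟨RS.extends, RS.directed⟩, IG.extends, IG.directed⟩

end Pool.Agent.Results.MP_28303a_al.PartialAutomorphisms
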